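import Pool.Agent.Helper58.FS.Types

/-!
Sums of distinct factorials with least term `a!`: for every prime `p`, explicit residue classes
of `a` modulo powers of `p` on which the attainable exponents are bounded.
-/

set_option autoImplicit false

namespace Pool.Agent.Results.MP_14840f_nt.ClassesAllPrimes

open Helper58.FS Polynomial Finset

/-- `k` is attainable for `(a, p)`: some sum of factorials of distinct integers, the least of which
is `a`, is divisible by `p ^ k`. -/
def Attainable (a p k : ℕ) : Prop :=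
  ∃ s : Finset ℕ, a ∈ s ∧ (∀ b ∈ s, a ≤ b) ∧ p ^ k ∣ ∑ b ∈ s, b.factorial

theorem abs_asc_neg {s l : ℕ} (hl : l < s) :
    |(asc l).eval (-(s : ℤ))| = (((s - 1).descFactorial l : ℕ) : ℤ) := by
  induction l with
  | zero => simp [asc_zero]
  | succ l ih =>
    rw [asc_succ, eval_mul, lin_eval, abs_mul, ih (by omega), Nat.descFactorial_succ]
    have h1 : |-(s : ℤ) + ((l + 1 : ℕ) : ℤ)| = ((s - 1 - l : ℕ) : ℤ) := by
      rw [abs_of_nonpos (by omega)]
      omega
    rw [h1]
    push_cast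
    ring

/-- For every prime `p` and all `s ≠ 0, 2` and `j` with `∑_{l < s} (s-1)!/(s-1-l)! < p ^ j`: if
`a ≡ -s` modulo `p ^ j`, then every exponent attainable for `(a, p)` is less than `v_p(a!) + j`. -/
theorem result (p : ℕ) (hp : p.Prime) (s j a : ℕ) (hs : s = 1 ∨ 3 ≤ s)
    (hD : ∑ l ∈ range s, (s - 1).descFactorial l < p ^ j) (_ha : 1 ≤ a) (hdvd : p ^ j ∣ a + s) :
    ∀ k : ℕ, Attainable a p k → k < padicValNat p a.factorial + j := by
  classical
  have : Fact p.Prime := ⟨hp⟩
  intro k hk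
  by_contra hlt
  rw [not_lt] at hlt
  obtain ⟨S, haS, hmin, hk⟩ := hk
  obtain ⟨L, hL⟩ : ∃ L, L = S.image (fun b => b - a) := ⟨_, rfl⟩
  have h0 : 0 ∈ L := by rw [hL]; exact Finset.mem_image.2 ⟨a, haS, by simp⟩
  have hsum : (FP L).eval (a : ℤ) * (a.factorial : ℤ) = ((∑ b ∈ S, b.factorial : ℕ) : ℤ) := by
    rw [hL, FP_eval_mul, Finset.sum_image]
    · push_cast
      refine Finset.sum_congr rfl fun b hb => ?_
      have := hmin b hb
      rw [Nat.add_sub_cancel' this]
    · intro b hb b' hb' hbb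
      have h1 := hmin b hb
      have h2 := hmin b' hb'
      simp only at hbb
      omega
  -- `p ^ j` divides `F_L(a)`
  have hpj : (p : ℤ) ^ j ∣ (FP L).eval (a : ℤ) := by
    have h1 : (p : ℤ) ^ (padicValNat p a.factorial + j) ∣
        (FP L).eval (a : ℤ) * (a.factorial : ℤ) := by
      rw [hsum]
      exact_mod_cast (pow_dvd_pow p hlt).trans hk
    obtain ⟨u, hu⟩ : p ^ padicValNat p a.factorial ∣ a.factorial := pow_padicValNat_dvd
    have hu2 : ¬ p ∣ u := by
      rintro ⟨v, rfl⟩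
      apply pow_succ_padicValNat_not_dvd (p := p) (Nat.factorial_ne_zero a)
      refine ⟨v, ?_⟩
      rw [pow_succ, mul_assoc]
      exact hu
    have h2 : (a.factorial : ℤ) = (p : ℤ) ^ padicValNat p a.factorial * u := by exact_mod_cast hu
    rw [h2, pow_add] at h1
    have h3 : (p : ℤ) ^ j ∣ (FP L).eval (a : ℤ) * u := by
      have h4 : (p : ℤ) ^ padicValNat p a.factorial * (p : ℤ) ^ j ∣
          (p : ℤ) ^ padicValNat p a.factorial * ((FP L).eval (a : ℤ) * u) := by
        calc _ ∣ _ := h1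
          _ = _ := by ring
      have hp0 : (p : ℤ) ^ padicValNat p a.factorial ≠ 0 :=
        pow_ne_zero _ (by exact_mod_cast hp.ne_zero)
      exact (mul_dvd_mul_iff_left hp0).1 h4
    have hc : IsCoprime ((p : ℤ) ^ j) (u : ℤ) := by
      apply IsCoprime.pow_left
      rw [Nat.isCoprime_iff_coprime]
      exact (Nat.Prime.coprime_iff_not_dvd hp).2 hu2
    exact hc.dvd_of_dvd_mul_right h3
  -- truncation
  have hs1 : 1 ≤ s := by omega
  have hdvd' : (p : ℤ) ^ j ∣ (a : ℤ) + s := by exact_mod_cast hdvd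
  have hL0 : (p : ℤ) ^ j ∣ (FP (L.filter (· < s))).eval (a : ℤ) := by
    rw [FP_split L s, eval_add] at hpj
    refine (dvd_add_left ?_).1 hpj
    obtain ⟨c, hc⟩ := FP_large_dvd (L := L.filter (fun l => ¬ l < s)) (t := s)
      (fun l hl => not_lt.1 (Finset.mem_filter.1 hl).2)
    obtain ⟨d, hd⟩ := lin_dvd_asc hs1 (le_refl s)
    rw [hc, hd, eval_mul, eval_mul, lin_eval]
    exact Dvd.dvd.mul_right (Dvd.dvd.mul_right hdvd' _) _
  -- evaluation at `-s`
  have hneg : (p : ℤ) ^ j ∣ (FP (L.filter (· < s))).eval (-(s : ℤ)) := by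
    have h1 : (a : ℤ) - -(s : ℤ) ∣ (FP (L.filter (· < s))).eval (a : ℤ) -
        (FP (L.filter (· < s))).eval (-(s : ℤ)) := Polynomial.sub_dvd_eval_sub _ _ _
    have h2 : (a : ℤ) - -(s : ℤ) = a + s := by ring
    rw [h2] at h1
    have h3 := dvd_sub hL0 (hdvd'.trans h1)
    simpa using h3
  have hbound : |(FP (L.filter (· < s))).eval (-(s : ℤ))| < (p : ℤ) ^ j := by
    rw [FP_eval]
    calc |∑ l ∈ L.filter (· < s), (asc l).eval (-(s : ℤ))| ≤
        ∑ l ∈ L.filter (· < s), |(asc l).eval (-(s : ℤ))| := Finset.abs_sum_le_sum_abs _ _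
      _ = ∑ l ∈ L.filter (· < s), (((s - 1).descFactorial l : ℕ) : ℤ) :=
          Finset.sum_congr rfl fun l hl => abs_asc_neg (Finset.mem_filter.1 hl).2
      _ ≤ ∑ l ∈ range s, (((s - 1).descFactorial l : ℕ) : ℤ) :=
          Finset.sum_le_sum_of_subset_of_nonneg
            (fun l hl => Finset.mem_range.2 (Finset.mem_filter.1 hl).2)
            (fun _ _ _ => Int.natCast_nonneg _)
      _ < _ := by exact_mod_cast hD
  have hzero : (FP (L.filter (· < s))).eval (-(s : ℤ)) = 0 :=
    Int.eq_zero_of_abs_lt_dvd hneg hbound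
  -- but the value is nonzero
  have h0s : 0 ∈ L.filter (· < s) := Finset.mem_filter.2 ⟨h0, hs1⟩
  rcases hs with rfl | hs3
  · have h1 : L.filter (· < 1) = {0} := by
      ext l
      simp only [Finset.mem_filter, Finset.mem_singleton]
      constructor
      · rintro ⟨-, h⟩; omega
      · rintro rfl; exact ⟨h0, by norm_num⟩
    rw [h1, FP_eval, Finset.sum_singleton, asc_zero] at hzero
    simp at hzero
  · obtain ⟨H, hH⟩ := FP_mod (L.filter (· < s))
    rw [hH, bit_eq_one.2 h0s] at hzero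
    simp only [C_1, eval_add, eval_mul, eval_one, eval_X, eval_C, eval_ofNat] at hzero
    have h1 : ((s : ℤ) - 1) ∣ 1 := by
      refine ⟨bit (L.filter (· < s)) 1 + (-(s : ℤ) + 2) * eval (-(s : ℤ)) H, ?_⟩
      linarith
    have h2 := Int.le_of_dvd (by norm_num) h1
    omega

end Pool.Agent.Results.MP_14840f_nt.ClassesAllPrimes
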