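import Pool.Agent.FacLarge.Fin4

/-!
Sums of distinct factorials with least term `a!` and powers of a large prime `p`
(Erdos and Graham).

Outside the top `p ^ δ` residue classes mod `p`, the exponent `v_p(a!) + T` is attainable for all
`a` in an interval of length `x ≥ T ^ 8`, with at most `x / p ^ A` exceptions, for any fixed `A`,
once `p` is large in terms of `δ` and `A` only and `x ≥ p ^ (120 (A + 14))`.

**Proof.** Write `v = v_p`. The terms `b! / a!` with `b` in one block `[p m, p m + p)` have the same
valuation, and the valuation grows by `1 + v(m)` between two blocks. One shows that for all `t < T`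
the sums of the terms before block `t` represent every residue that they have to represent, with
about the expected number of representations. The frequencies which are still alive after `m`
blocks are bounded by determinants (bounded conductor) and by the translation of the pairs
(block, frequency) which leaves all later blocks unchanged (large conductor): of `p ^ 2` pairs in an
orbit only one has small energy in a block, so on average over the block the contribution of the
frequencies decreases by a factor `p` per block. Windows of `12 k` blocks without a multiple of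
`p ^ (2 k + 1)` then allow a union bound over `t < T`.
-/

set_option autoImplicit false

namespace Pool.Agent.Results.MP_14840f_nt.PolynomialExcess

open Pool.Agent.FacLarge

/-- `k` is attainable for `(a, p)`: some sum of factorials of distinct integers, the least of which
is `a`, is divisible by `p ^ k`. -/
def Attainable (a p k : ℕ) : Prop :=
  ∃ s : Finset ℕ, a ∈ s ∧ (∀ b ∈ s, a ≤ b) ∧ p ^ k ∣ ∑ b ∈ s, b.factorial

theorem factorial_eq (a i : ℕ) : ((a + i).factorial : ℤ) = a.factorial * rp a i := by
  induction i with
  | zero => simp [rp_zero]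
  | succ i ih =>
    rw [rp_succ, ← add_assoc, Nat.factorial_succ]
    push_cast
    rw [ih]
    ring

theorem attainable_of_goodA {a p T : ℕ} (h : GoodA p T a) :
    Attainable a p (padicValNat p a.factorial + T) := by
  classical
  obtain ⟨I, hI⟩ := h
  refine ⟨insert a (I.image (fun i => a + (i + 1))), Finset.mem_insert_self _ _, ?_, ?_⟩
  · intro b hb
    rw [Finset.mem_insert, Finset.mem_image] at hb
    rcases hb with rfl | ⟨i, _, rfl⟩
    · exact le_rfl
    · omega
  · rw [Finset.sum_insert]
    · rw [Finset.sum_image (by intro x _ y _ hxy; simpa using hxy)]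
      have h1 : ((a.factorial + ∑ i ∈ I, (a + (i + 1)).factorial : ℕ) : ℤ) =
          a.factorial * (1 + ∑ i ∈ I, rp a (i + 1)) := by
        push_cast
        rw [mul_add, mul_one, Finset.mul_sum]
        congr 1
        apply Finset.sum_congr rfl
        intro i _
        rw [← factorial_eq]
      have h2 : ((p ^ (padicValNat p a.factorial + T) : ℕ) : ℤ) ∣
          ((a.factorial + ∑ i ∈ I, (a + (i + 1)).factorial : ℕ) : ℤ) := by
        rw [h1, pow_add]
        push_cast
        apply mul_dvd_mul _ hI
        exact_mod_cast pow_padicValNat_dvd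
      exact_mod_cast h2
    · rw [Finset.mem_image]
      rintro ⟨i, _, hi⟩
      omega

/-- For every `δ > 0` and every `A` there is `P` such that for all primes `p ≥ P`, all
`x ≥ p ^ (120 (A + 14))`, all `T` with `T ^ 8 ≤ x` and all `b ≥ 1`: among the `x` integers `a` with
`b ≤ a < b + x`, at most `x / p ^ A` have `(a mod p) + p ^ δ ≤ p` and `v_p(a!) + T` not attainable
for `(a, p)`. -/
theorem result : ∀ δ : ℝ, 0 < δ → ∀ A : ℕ, ∃ P : ℕ, ∀ p : ℕ, P ≤ p → p.Prime →
    ∀ x T b : ℕ, p ^ (120 * (A + 14)) ≤ x → T ^ 8 ≤ x → 1 ≤ b →
    {a : ℕ | b ≤ a ∧ a < b + x ∧ ((a % p : ℕ) : ℝ) + (p : ℝ) ^ δ ≤ p ∧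
      ¬ Attainable a p (padicValNat p a.factorial + T)}.ncard * p ^ A ≤ x := by
  intro δ hδ A
  obtain ⟨P, hP⟩ := most_residues3 hδ A
  refine ⟨P, fun p hp hpp x T b hx hT _ => le_trans ?_ (hP p hp hpp x T b hx hT)⟩
  apply Nat.mul_le_mul_right
  apply Set.ncard_le_ncard
  · exact fun a ha => ⟨ha.1, ha.2.1, ha.2.2.1, fun h => ha.2.2.2 (attainable_of_goodA h)⟩
  · exact (Set.finite_Ico b (b + x)).subset fun a ha => ⟨ha.1, ha.2.1⟩

end Pool.Agent.Results.MP_14840f_nt.PolynomialExcess
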