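import Pool.Agent.FacLarge.Det4

/-!
Sums of distinct factorials with least term `a!` and powers of a large prime `p`
(Erdos and Graham).

The exponent `v_p(a!) + T + E` is attainable whenever no multiple of `p ^ E` lies among the first
`p T` integers above `a`, the residue of `a` mod `p` is at least `p ^ δ` below `p`, and `p` is
large in terms of `δ` and `E` only.  For `T = 0` there is no condition on multiples: we have
`f(a, p) ≥ v_p(a!) + E` for all `a` outside the top `p ^ δ` classes mod `p`.  For `T = p ^ E`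
(and `E + 2` for `E`) we have `f(a, p) ≥ p ^ E` for `a ≤ p ^ E`: for fixed `a`, `f(a, p)` grows
faster than any power of `p`.
-/

set_option autoImplicit false

namespace Pool.Agent.Results.MP_14840f_nt.PowerGrowth

open Pool.Agent.FacLarge

/-- `k` is attainable for `(a, p)`: some sum of factorials of distinct integers, the least of which
is `a`, is divisible by `p ^ k`. -/
def Attainable (a p k : ℕ) : Prop :=
  ∃ s : Finset ℕ, a ∈ s ∧ (∀ b ∈ s, a ≤ b) ∧ p ^ k ∣ ∑ b ∈ s, b.factorial

theorem factorial_eq (a i : ℕ) : ((a + i).factorial : ℤ) = a.factorial * rp a i := by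
  induction i with
  | zero => simp [rp_zero]
  | succ i ih =>
    rw [rp_succ, ← add_assoc, Nat.factorial_succ]
    push_cast
    rw [ih]
    ring

theorem attainable_of_goodA {a p T : ℕ} (h : GoodA p T a) :
    Attainable a p (padicValNat p a.factorial + T) := by
  classical
  obtain ⟨I, hI⟩ := h
  refine ⟨insert a (I.image (fun i => a + (i + 1))), Finset.mem_insert_self _ _, ?_, ?_⟩
  · intro b hb
    rw [Finset.mem_insert, Finset.mem_image] at hb
    rcases hb with rfl | ⟨i, _, rfl⟩
    · exact le_rfl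
    · omega
  · rw [Finset.sum_insert]
    · rw [Finset.sum_image (by intro x _ y _ hxy; simpa using hxy)]
      have h1 : ((a.factorial + ∑ i ∈ I, (a + (i + 1)).factorial : ℕ) : ℤ) =
          a.factorial * (1 + ∑ i ∈ I, rp a (i + 1)) := by
        push_cast
        rw [mul_add, mul_one, Finset.mul_sum]
        congr 1
        apply Finset.sum_congr rfl
        intro i _
        rw [← factorial_eq]
      have h2 : ((p ^ (padicValNat p a.factorial + T) : ℕ) : ℤ) ∣
          ((a.factorial + ∑ i ∈ I, (a + (i + 1)).factorial : ℕ) : ℤ) := by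
        rw [h1, pow_add]
        push_cast
        apply mul_dvd_mul _ hI
        exact_mod_cast pow_padicValNat_dvd
      exact_mod_cast h2
    · rw [Finset.mem_image]
      rintro ⟨i, _, hi⟩
      omega

/-- For every `δ > 0` and every `E` there is `P` such that for all primes `p ≥ P`, all `a ≥ 1`
with `(a mod p) + p ^ δ ≤ p` and all `T` such that no multiple of `p ^ E` lies in `(a, a + p T]`,
the exponent `v_p(a!) + T + E` is attainable for `(a, p)`. -/
theorem result : ∀ δ : ℝ, 0 < δ → ∀ E : ℕ, ∃ P : ℕ, ∀ p : ℕ, P ≤ p → p.Prime →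
    ∀ a T : ℕ, 1 ≤ a → ((a % p : ℕ) : ℝ) + (p : ℝ) ^ δ ≤ p →
    (∀ b, a < b → b ≤ a + p * T → ¬ p ^ E ∣ b) →
    Attainable a p (padicValNat p a.factorial + T + E) := by
  intro δ hδ E
  obtain ⟨ε, hε1, P1, h1⟩ := exists_params hδ (E + 1) (4 * (E + 1))
  refine ⟨max P1 (E + 4), fun p hp hpp a T _ hres hdiv => ?_⟩
  obtain ⟨hGE, hpow⟩ := h1 p (le_trans (le_max_left _ _) hp) hpp
  have hp4 : E + 4 ≤ p := le_trans (le_max_right _ _) hp
  rw [add_assoc]
  apply attainable_of_goodA
  have hmod : a % p < p := Nat.mod_lt _ hpp.pos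
  have hdm := Nat.div_add_mod a p
  obtain ⟨q, hq⟩ : ∃ q, q = a / p := ⟨_, rfl⟩
  obtain ⟨r, hr⟩ : ∃ r, r = a % p := ⟨_, rfl⟩
  rw [← hq, ← hr] at hdm
  rw [← hr] at hmod
  have hs := residue_cond hpp.pos hpow hres
  rw [← hr] at hs
  apply goodA_det2 hpp hp4 (by linarith) hGE T (n := (q : ℤ) + 1) (s := p - 1 - r)
    (by omega) _ hs
  · intro i hi h
    have h2 : p ^ E ∣ q + 1 + i := by exact_mod_cast h
    have h3 : p ^ E ∣ p * (q + 1 + i) := Dvd.dvd.mul_left h2 p
    apply hdiv (p * (q + 1 + i)) _ _ h3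
    · rw [← hdm]
      nlinarith
    · have h4 : p * (q + 1 + i) ≤ p * (q + T) := Nat.mul_le_mul_left p (by omega)
      rw [← hdm]
      nlinarith
  · have h2 : ((p - 1 - r : ℕ) : ℤ) = (p : ℤ) - 1 - r := by omega
    rw [h2, ← hdm]
    push_cast
    ring

end Pool.Agent.Results.MP_14840f_nt.PowerGrowth
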