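import Pool.Agent.Helper58.FS.Density

/-!
Sums of distinct factorials with least term `a!` and powers of two (Erdos and Graham).

For almost every `a` the 2-adic valuation of such sums is bounded, and only a proportion
`O(T ^ (-c))` of the `a` admit a sum divisible by `2 ^ T` times the full power of two in `a!`.
-/

set_option autoImplicit false

namespace Pool.Agent.Results.MP_14840f_nt.TailTwo

open Helper58.FS

/-- `k` is attainable for `(a, p)`: some sum of factorials of distinct integers, the least of which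
is `a`, is divisible by `p ^ k`. -/
def Attainable (a p k : ℕ) : Prop :=
  ∃ s : Finset ℕ, a ∈ s ∧ (∀ b ∈ s, a ≤ b) ∧ p ^ k ∣ ∑ b ∈ s, b.factorial

theorem aliveTo_of_attainable {a T : ℕ}
    (h : Attainable a 2 (padicValNat 2 a.factorial + T)) : AliveTo T a := by
  classical
  obtain ⟨s, has, hmin, hdvd⟩ := h
  have h0 : 0 ∈ s.image (fun b => b - a) := Finset.mem_image.2 ⟨a, has, by simp⟩
  have hsum : (FP (s.image (fun b => b - a))).eval (a : ℤ) * (a.factorial : ℤ) =
      ((∑ b ∈ s, b.factorial : ℕ) : ℤ) := by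
    rw [FP_eval_mul, Finset.sum_image]
    · push_cast
      refine Finset.sum_congr rfl fun b hb => ?_
      have := hmin b hb
      rw [Nat.add_sub_cancel' this]
    · intro b hb b' hb' hbb
      have h1 := hmin b hb
      have h2 := hmin b' hb'
      simp only at hbb
      omega
  have h1 : (2 : ℤ) ^ (padicValNat 2 a.factorial + T) ∣
      (a.factorial : ℤ) * (FP (s.image (fun b => b - a))).eval (a : ℤ) := by
    rw [mul_comm, hsum]
    exact_mod_cast hdvd
  have h2 : ¬ (2 : ℤ) ^ (padicValNat 2 a.factorial + 1) ∣ (a.factorial : ℤ) := by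
    intro h3
    have h4 : 2 ^ (padicValNat 2 a.factorial + 1) ∣ a.factorial := by exact_mod_cast h3
    exact pow_succ_padicValNat_not_dvd (Nat.factorial_ne_zero a) h4
  have h3 := two_pow_dvd_right h1 h2
  have h4 : padicValNat 2 a.factorial + T + 1 - (padicValNat 2 a.factorial + 1) = T := by omega
  rw [h4] at h3
  exact ⟨_, h0, h3⟩

theorem Attainable.mono {a p k k' : ℕ} (h : Attainable a p k) (hk : k' ≤ k) :
    Attainable a p k' := by
  obtain ⟨s, h1, h2, h3⟩ := h
  exact ⟨s, h1, h2, (pow_dvd_pow p hk).trans h3⟩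

/-- There are constants `c > 0` and `C` such that, for all `T ≥ 1` and `x ≥ 2 ^ T`, at most
`C x / T ^ c` positive integers `a < x` have an attainable exponent `v₂(a!) + T`; and at most
`C x / (log x) ^ c` positive integers `a < x` have unbounded attainable exponents (`x ≥ 2`). -/
theorem result : ∃ c C : ℝ, 0 < c ∧
    (∀ T x : ℕ, 1 ≤ T → 2 ^ T ≤ x →
      ({a : ℕ | 1 ≤ a ∧ a < x ∧ Attainable a 2 (padicValNat 2 a.factorial + T)}.ncard : ℝ) ≤
        C * x / (T : ℝ) ^ c) ∧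
    (∀ x : ℕ, 2 ≤ x →
      ({a : ℕ | 1 ≤ a ∧ a < x ∧ ¬ BddAbove {k : ℕ | Attainable a 2 k}}.ncard : ℝ) ≤
        C * x / (Real.log x) ^ c) := by
  classical
  have hfirst : ∀ T x : ℕ, 1 ≤ T → 2 ^ T ≤ x →
      ({a : ℕ | 1 ≤ a ∧ a < x ∧ Attainable a 2 (padicValNat 2 a.factorial + T)}.ncard : ℝ) ≤
        16 * (x / (T : ℝ) ^ ((1 : ℝ) / 2 ^ 15)) := by
    intro T x hT hx
    refine le_trans ?_ (tail hT hx)
    have hsub : {a : ℕ | 1 ≤ a ∧ a < x ∧ Attainable a 2 (padicValNat 2 a.factorial + T)} ⊆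
        (((Finset.range x).filter (AliveTo T) : Finset ℕ) : Set ℕ) := by
      rintro a ⟨-, ha1, ha2⟩
      rw [Finset.mem_coe, Finset.mem_filter, Finset.mem_range]
      exact ⟨ha1, aliveTo_of_attainable ha2⟩
    have h1 := Set.ncard_le_ncard hsub (Finset.finite_toSet _)
    rw [Set.ncard_coe_finset] at h1
    exact_mod_cast h1
  refine ⟨1 / 2 ^ 15, 32, by positivity, ?_, ?_⟩
  · intro T x hT hx
    refine (hfirst T x hT hx).trans ?_
    have hT0 : (0 : ℝ) < T := by exact_mod_cast hT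
    have h2 : (0 : ℝ) ≤ x / (T : ℝ) ^ ((1 : ℝ) / 2 ^ 15) := by positivity
    calc 16 * (x / (T : ℝ) ^ ((1 : ℝ) / 2 ^ 15)) ≤ 32 * (x / (T : ℝ) ^ ((1 : ℝ) / 2 ^ 15)) := by
          linarith
      _ = _ := by rw [mul_div_assoc]
  · intro x hx
    obtain ⟨T, hTdef⟩ : ∃ T, T = Nat.log 2 x := ⟨_, rfl⟩
    have hT : 1 ≤ T := by rw [hTdef]; exact Nat.le_log_of_pow_le (by norm_num) (by simpa using hx)
    have hTx : 2 ^ T ≤ x := by rw [hTdef]; exact Nat.pow_log_le_self 2 (by omega)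
    have hxT : x < 2 ^ (T + 1) := by
      rw [hTdef]; exact Nat.lt_pow_succ_log_self (by norm_num) x
    have hsub : {a : ℕ | 1 ≤ a ∧ a < x ∧ ¬ BddAbove {k : ℕ | Attainable a 2 k}} ⊆
        {a : ℕ | 1 ≤ a ∧ a < x ∧ Attainable a 2 (padicValNat 2 a.factorial + T)} := by
      rintro a ⟨h1, h2, h3⟩
      refine ⟨h1, h2, ?_⟩
      by_contra h4
      apply h3
      refine ⟨padicValNat 2 a.factorial + T, ?_⟩
      intro k hk
      by_contra h5
      exact h4 (Attainable.mono hk (not_le.1 h5).le)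
    have hfin : {a : ℕ | 1 ≤ a ∧ a < x ∧
        Attainable a 2 (padicValNat 2 a.factorial + T)}.Finite :=
      (Set.finite_lt_nat x).subset fun a ha => ha.2.1
    have h1 : (({a : ℕ | 1 ≤ a ∧ a < x ∧ ¬ BddAbove {k : ℕ | Attainable a 2 k}}.ncard : ℕ) : ℝ) ≤
        ({a : ℕ | 1 ≤ a ∧ a < x ∧ Attainable a 2 (padicValNat 2 a.factorial + T)}.ncard : ℝ) := by
      exact_mod_cast Set.ncard_le_ncard hsub hfin
    refine h1.trans ((hfirst T x hT hTx).trans ?_)
    have hT0 : (0 : ℝ) < T := by exact_mod_cast hT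
    have hx0 : (0 : ℝ) < x := by
      have : 0 < x := by omega
      exact_mod_cast this
    have hlogpos : 0 < Real.log x := Real.log_pos (by exact_mod_cast (by omega : 1 < x))
    have hlog : Real.log x ≤ 2 * T := by
      have h5 : (x : ℝ) ≤ 2 ^ (T + 1) := by exact_mod_cast hxT.le
      have h6 : Real.log x ≤ Real.log (2 ^ (T + 1)) := Real.log_le_log hx0 h5
      rw [Real.log_pow] at h6
      have h7 : Real.log 2 ≤ 1 := by
        have := Real.log_two_lt_d9; linarith
      have h8 : ((T + 1 : ℕ) : ℝ) * Real.log 2 ≤ ((T + 1 : ℕ) : ℝ) * 1 :=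
        mul_le_mul_of_nonneg_left h7 (Nat.cast_nonneg _)
      have h9 : ((T + 1 : ℕ) : ℝ) ≤ 2 * T := by
        push_cast
        have : (1 : ℝ) ≤ T := by exact_mod_cast hT
        linarith
      linarith
    have hpow : (Real.log x) ^ ((1 : ℝ) / 2 ^ 15) ≤ 2 * (T : ℝ) ^ ((1 : ℝ) / 2 ^ 15) := by
      have h5 : (Real.log x) ^ ((1 : ℝ) / 2 ^ 15) ≤ (2 * (T : ℝ)) ^ ((1 : ℝ) / 2 ^ 15) :=
        Real.rpow_le_rpow hlogpos.le hlog (by positivity)
      refine h5.trans ?_
      rw [Real.mul_rpow (by norm_num) hT0.le]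
      refine mul_le_mul_of_nonneg_right ?_ (by positivity)
      calc (2 : ℝ) ^ ((1 : ℝ) / 2 ^ 15) ≤ (2 : ℝ) ^ (1 : ℝ) :=
            Real.rpow_le_rpow_of_exponent_le (by norm_num) (by norm_num)
        _ = 2 := by norm_num
    have hp1 : (0 : ℝ) < (Real.log x) ^ ((1 : ℝ) / 2 ^ 15) := Real.rpow_pos_of_pos hlogpos _
    have hp2 : (0 : ℝ) < (T : ℝ) ^ ((1 : ℝ) / 2 ^ 15) := Real.rpow_pos_of_pos hT0 _
    rw [← mul_div_assoc, div_le_div_iff₀ hp2 hp1]
    nlinarith

end Pool.Agent.Results.MP_14840f_nt.TailTwo
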